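import Pool.Agent.R60.Rainbow

/-!
# MP_1c393c_co, Q1: infinitely many connected graphs admit a non-monotone witness

For every `n ≥ 6` there is a connected graph `H` on `n` vertices (a spider with two legs of length
two and `n - 5` legs of length one) that admits a non-monotone witness `G` (a windmill: `t`
triangles that share one vertex).

In a proper edge colouring of the windmill with `χ' = 2t` colours every colour is used at the hub,
so two blades have different colours and one can place the two long legs on them. If all the blades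
get the same new colour there is no rainbow copy of `H`.
-/

set_option autoImplicit false

namespace Pool.Agent.Results.MP_1c393c_co.InfiniteFamily

open Pool.Agent.R60.Rainbow

/-- `G` is a non-monotone witness for `H`: every proper edge colouring of `G` that uses exactly
`χ'(G)` colours contains a rainbow copy of `H`, and some proper edge colouring of `G` contains no
rainbow copy of `H`. -/
def IsNonMonotoneWitness {W V : Type} (H : SimpleGraph W) (G : SimpleGraph V) : Prop :=
  (∀ c : Sym2 V → ℕ, IsProper G c → numColours G c = chromaticIndex G → HasRainbowCopy H G c) ∧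
    ∃ c : Sym2 V → ℕ, IsProper G c ∧ ¬ HasRainbowCopy H G c

/-- The windmill with `t` blades: `none` is the hub, `(i, b)` are the two other vertices of the
`i`-th triangle. -/
def windmill (t : ℕ) : SimpleGraph (Option (Fin t × Bool)) where
  Adj x y := match x, y with
    | none, none => False
    | none, some _ => True
    | some _, none => True
    | some p, some q => p.1 = q.1 ∧ p.2 ≠ q.2
  symm := ⟨by
    rintro (_ | p) (_ | q) h
    · exact h
    · trivial
    · trivial
    · exact ⟨h.1.symm, h.2.symm⟩⟩
  loopless := ⟨by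
    rintro (_ | p) h
    · exact h
    · exact h.2 rfl⟩

/-- The spider: centre `0`, legs `0 - 1 - 3` and `0 - 2 - 4`, and `l` more neighbours of `0`. -/
def par (l : ℕ) : Fin 5 ⊕ Fin l → Fin 5 ⊕ Fin l
  | .inl 0 => .inl 0
  | .inl 1 => .inl 0
  | .inl 2 => .inl 0
  | .inl 3 => .inl 1
  | .inl 4 => .inl 2
  | .inr _ => .inl 0

/-- The spider graph. -/
def spider (l : ℕ) : SimpleGraph (Fin 5 ⊕ Fin l) where
  Adj x y := x ≠ y ∧ (par l x = y ∨ par l y = x)
  symm := ⟨fun _ _ h => ⟨h.1.symm, h.2.symm⟩⟩
  loopless := ⟨fun _ h => h.1 rfl⟩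

lemma par_ne (l : ℕ) (x : Fin 5 ⊕ Fin l) (hx : x ≠ .inl 0) : par l x ≠ x := by
  rcases x with x | x
  · fin_cases x
    · exact absurd rfl hx
    all_goals simp [par]
  · simp [par]

lemma edge_spider (l : ℕ) (e : Sym2 (Fin 5 ⊕ Fin l)) (he : e ∈ (spider l).edgeSet) :
    ∃ w, w ≠ Sum.inl 0 ∧ e = s(par l w, w) := by
  induction e using Sym2.ind with
  | _ x y =>
    rw [SimpleGraph.mem_edgeSet] at he
    obtain ⟨hne, h | h⟩ := he
    · refine ⟨x, ?_, ?_⟩
      · rintro rfl
        exact hne (by rw [← h]; rfl)
      · rw [h, Sym2.eq_swap]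
    · refine ⟨y, ?_, ?_⟩
      · rintro rfl
        exact hne (by rw [← h]; rfl)
      · rw [h]

lemma spider_connected (l : ℕ) : (spider l).Connected := by
  have h1 : ∀ x, (spider l).Reachable x (par l x) := by
    intro x
    by_cases hx : x = .inl 0
    · subst hx
      exact SimpleGraph.Reachable.refl _
    · exact SimpleGraph.Adj.reachable ⟨(par_ne l x hx).symm, Or.inl rfl⟩
  have h2 : ∀ x, par l (par l x) = .inl 0 := by
    rintro (x | x)
    · fin_cases x <;> rfl
    · rfl
  have h3 : ∀ x, (spider l).Reachable x (.inl 0) := by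
    intro x
    have := (h1 x).trans (h1 (par l x))
    rwa [h2] at this
  refine (SimpleGraph.connected_iff _).2 ⟨fun x y => (h3 x).trans (h3 y).symm, ⟨.inl 0⟩⟩

/-- A copy of the spider is rainbow if the colours of the parent edges are distinct. -/
lemma rainbow_of {l : ℕ} {V : Type} {G : SimpleGraph V} {c : Sym2 V → ℕ}
    (f : Fin 5 ⊕ Fin l → V) (hf : Function.Injective f)
    (hadj : ∀ w, w ≠ Sum.inl 0 → G.Adj (f (par l w)) (f w))
    (hcol : ∀ w w', w ≠ Sum.inl 0 → w' ≠ Sum.inl 0 → w ≠ w' →
      c s(f (par l w), f w) ≠ c s(f (par l w'), f w')) :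
    HasRainbowCopy (spider l) G c := by
  refine ⟨f, hf, ?_, ?_⟩
  · rintro a b ⟨hne, h | h⟩
    · have ha : a ≠ Sum.inl 0 := by
        rintro rfl
        exact hne (by rw [← h]; rfl)
      have := hadj a ha
      rw [h] at this
      exact this.symm
    · have hb : b ≠ Sum.inl 0 := by
        rintro rfl
        exact hne (by rw [← h]; rfl)
      have := hadj b hb
      rwa [h] at this
  · intro e he e' he' hne
    obtain ⟨w, hw, rfl⟩ := edge_spider l e he
    obtain ⟨w', hw', rfl⟩ := edge_spider l e' he'
    have : w ≠ w' := by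
      rintro rfl
      exact hne rfl
    simpa using hcol w w' hw hw' this

/-- The colouring of the windmill with `2t` colours. -/
def col1 (t : ℕ) : Sym2 (Option (Fin t × Bool)) → ℕ :=
  Sym2.lift ⟨fun x y => match x, y with
    | none, none => 0
    | none, some p => 2 * p.1.1 + p.2.toNat
    | some p, none => 2 * p.1.1 + p.2.toNat
    | some p, some q => 2 * ((min p.1.1 q.1.1 + 1) % t), by
      rintro (_ | p) (_ | q)
      · rfl
      · rfl
      · rfl
      · simp only [min_comm]⟩

/-- The colouring of the windmill in which all the blades have colour `0`. -/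
def col2 (t : ℕ) : Sym2 (Option (Fin t × Bool)) → ℕ :=
  Sym2.lift ⟨fun x y => match x, y with
    | none, none => 0
    | none, some p => 2 * p.1.1 + p.2.toNat + 1
    | some p, none => 2 * p.1.1 + p.2.toNat + 1
    | some p, some q => 0, by
      rintro (_ | p) (_ | q) <;> rfl⟩

lemma toNat_lt (b : Bool) : b.toNat < 2 := by cases b <;> decide

lemma toNat_inj {b b' : Bool} (h : b.toNat = b'.toNat) : b = b' := by
  cases b <;> cases b' <;> simp_all

lemma star_inj {t : ℕ} {p q : Fin t × Bool} (h : 2 * p.1.1 + p.2.toNat = 2 * q.1.1 + q.2.toNat) :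
    p = q := by
  have h1 := toNat_lt p.2
  have h2 := toNat_lt q.2
  ext1
  · apply Fin.ext
    omega
  · apply toNat_inj
    omega

lemma blade_ne {t : ℕ} (ht : 2 ≤ t) (i : ℕ) (hi : i < t) : (i + 1) % t ≠ i := by
  intro h
  by_cases h1 : i + 1 = t
  · rw [h1, Nat.mod_self] at h
    omega
  · rw [Nat.mod_eq_of_lt (by omega)] at h
    omega

lemma eq_of_pair {p q r : Bool} (h1 : p ≠ q) (h2 : p ≠ r) : q = r := by
  cases p <;> cases q <;> cases r <;> simp_all

lemma proper1 {t : ℕ} (ht : 2 ≤ t) : IsProper (windmill t) (col1 t) := by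
  rintro (_ | p) (_ | q) (_ | r) h1 h2 hne
  · exact h1.elim
  · exact h1.elim
  · exact h2.elim
  · intro h
    exact hne (congrArg some (star_inj h))
  · exact (hne rfl).elim
  · intro h
    have h3 : 2 * p.1.1 + p.2.toNat = 2 * ((min p.1.1 r.1.1 + 1) % t) := h
    rw [← h2.1, min_self] at h3
    have := toNat_lt p.2
    exact blade_ne ht p.1.1 p.1.2 (by omega)
  · intro h
    have h3 : 2 * ((min p.1.1 q.1.1 + 1) % t) = 2 * p.1.1 + p.2.toNat := h
    rw [← h1.1, min_self] at h3
    have := toNat_lt p.2
    exact blade_ne ht p.1.1 p.1.2 (by omega)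
  · exfalso
    apply hne
    congr 1
    ext1
    · exact h1.1.symm.trans h2.1
    · exact eq_of_pair h1.2 h2.2

lemma proper2 (t : ℕ) : IsProper (windmill t) (col2 t) := by
  rintro (_ | p) (_ | q) (_ | r) h1 h2 hne
  · exact h1.elim
  · exact h1.elim
  · exact h2.elim
  · intro h
    exact hne (congrArg some (star_inj (Nat.succ_injective h)))
  · exact (hne rfl).elim
  · intro h
    exact Nat.succ_ne_zero _ h
  · intro h
    exact Nat.succ_ne_zero _ h.symm
  · exfalso
    apply hne
    congr 1
    ext1
    · exact h1.1.symm.trans h2.1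
    · exact eq_of_pair h1.2 h2.2

lemma bound1 {t : ℕ} (ht : 2 ≤ t) : ∀ e ∈ (windmill t).edgeSet, col1 t e < 2 * t := by
  intro e he
  have key : ∀ p : Fin t × Bool, 2 * p.1.1 + p.2.toNat < 2 * t := by
    intro p
    have := p.1.2
    have := toNat_lt p.2
    omega
  induction e using Sym2.ind with
  | _ x y =>
    rcases x with _ | p <;> rcases y with _ | q
    · exact he.elim
    · exact key q
    · exact key p
    · have : (min p.1.1 q.1.1 + 1) % t < t := Nat.mod_lt _ (by omega)
      change 2 * ((min p.1.1 q.1.1 + 1) % t) < 2 * t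
      omega

lemma card_some (t : ℕ) : (Set.range (some : Fin t × Bool → Option (Fin t × Bool))).ncard = 2 * t := by
  rw [← Set.image_univ, (Option.some_injective _).injOn.ncard_image, Set.ncard_univ]
  simp [Nat.card_eq_fintype_card, mul_comm]

lemma chi {t : ℕ} (ht : 2 ≤ t) : chromaticIndex (windmill t) = 2 * t := by
  refine chromaticIndex_eq (col1 t) (proper1 ht) (bound1 ht) none (Set.range some) ?_ (card_some t)
  rintro _ ⟨p, rfl⟩
  trivial

/-- Part one of the witness property. -/
lemma part1 (l : ℕ) (c : Sym2 (Option (Fin (l + 3) × Bool)) → ℕ)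
    (hc : IsProper (windmill (l + 3)) c)
    (hn : numColours (windmill (l + 3)) c = chromaticIndex (windmill (l + 3))) :
    HasRainbowCopy (spider l) (windmill (l + 3)) c := by
  classical
  rw [chi (by omega)] at hn
  -- all colours are star colours
  set S : Set (Option (Fin (l + 3) × Bool)) := Set.range some with hSdef
  have hS : ∀ w ∈ S, (windmill (l + 3)).Adj none w := by
    rintro _ ⟨p, rfl⟩
    trivial
  have hinj := star_injOn hc none S hS
  have himg : (fun w => c s(none, w)) '' S = c '' (windmill (l + 3)).edgeSet := by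
    apply Set.eq_of_subset_of_ncard_le
    · rintro _ ⟨w, hw, rfl⟩
      exact ⟨s(none, w), hS w hw, rfl⟩
    · rw [hinj.ncard_image, card_some]
      exact hn.le
    · exact (Set.toFinite _).image c
  have hall : ∀ x y, (windmill (l + 3)).Adj x y → ∃ p, c s(none, some p) = c s(x, y) := by
    intro x y hxy
    have : c s(x, y) ∈ c '' (windmill (l + 3)).edgeSet := ⟨_, hxy, rfl⟩
    rw [← himg] at this
    obtain ⟨_, ⟨p, rfl⟩, hp⟩ := this
    exact ⟨p, hp⟩
  have sinj : ∀ p q, c s(none, some p) = c s(none, some q) → p = q := by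
    intro p q h
    exact Option.some_injective _ (hinj ⟨p, rfl⟩ ⟨q, rfl⟩ h)
  -- blade colours
  have hbl : ∀ (i : Fin (l + 3)) (b : Bool),
      (windmill (l + 3)).Adj (some (i, b)) (some (i, !b)) := by
    intro i b
    exact ⟨rfl, by cases b <;> simp⟩
  have hnot : ∀ (i : Fin (l + 3)) (b b' : Bool),
      c s(none, some (i, b)) ≠ c s(some (i, b'), some (i, !b')) := by
    intro i b b' h
    have h2 : c s(some (i, b), none) = c s(some (i, b), some (i, !b)) := by
      rw [Sym2.eq_swap (a := some (i, b)) (b := none), h]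
      by_cases hb : b = b'
      · rw [hb]
      · have : b' = !b := by cases b <;> cases b' <;> simp_all
        rw [this, Bool.not_not, Sym2.eq_swap]
    exact hc (some (i, b)) none (some (i, !b)) trivial (hbl i b) (by simp) h2
  obtain ⟨⟨j, b⟩, hj⟩ := hall _ _ (hbl 0 false)
  have hj0 : j ≠ 0 := by
    rintro rfl
    exact hnot 0 b false hj
  -- choice of the vertex in blade zero
  obtain ⟨b0, hb0⟩ : ∃ b0, c s(none, some (0, b0)) ≠ c s(some (j, !b), some (j, b)) := by
    by_contra hcon
    push Not at hcon
    have := sinj _ _ ((hcon false).trans (hcon true).symm)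
    simp at this
  -- the pendant vertices
  set T : Finset (Fin (l + 3) × Bool) :=
    Finset.univ.filter (fun p => p.1 ≠ 0 ∧ p.1 ≠ j ∧
      c s(none, some p) ≠ c s(some (j, !b), some (j, b))) with hT
  have hTcard : l ≤ T.card := by
    have hsub : (Finset.univ : Finset (Fin (l + 3) × Bool)) ⊆
        T ∪ ((({0, j} : Finset (Fin (l + 3))) ×ˢ (Finset.univ : Finset Bool)) ∪
          Finset.univ.filter (fun p => c s(none, some p) = c s(some (j, !b), some (j, b)))) := by
      intro p _
      simp only [hT, Finset.mem_union, Finset.mem_filter, Finset.mem_univ, true_and,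
        Finset.mem_product, Finset.mem_insert, Finset.mem_singleton, and_true]
      tauto
    have h1 := Finset.card_le_card hsub
    have h2 : (Finset.univ.filter (fun p : Fin (l + 3) × Bool =>
        c s(none, some p) = c s(some (j, !b), some (j, b)))).card ≤ 1 := by
      rw [Finset.card_le_one]
      intro p hp q hq
      simp only [Finset.mem_filter, Finset.mem_univ, true_and] at hp hq
      exact sinj p q (hp.trans hq.symm)
    have h3 := Finset.card_union_le T ((({0, j} : Finset (Fin (l + 3))) ×ˢ
      (Finset.univ : Finset Bool)) ∪ Finset.univ.filter (fun p =>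
        c s(none, some p) = c s(some (j, !b), some (j, b))))
    have h4 := Finset.card_union_le (({0, j} : Finset (Fin (l + 3))) ×ˢ
      (Finset.univ : Finset Bool)) (Finset.univ.filter (fun p =>
        c s(none, some p) = c s(some (j, !b), some (j, b))))
    have h5 : (({0, j} : Finset (Fin (l + 3))) ×ˢ (Finset.univ : Finset Bool)).card ≤ 4 := by
      rw [Finset.card_product]
      have := Finset.card_le_two (a := (0 : Fin (l + 3))) (b := j)
      simp only [Finset.card_univ, Fintype.card_bool]
      omega
    have h6 : (Finset.univ : Finset (Fin (l + 3) × Bool)).card = 2 * (l + 3) := by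
      rw [Finset.card_univ]
      simp [mul_comm]
    omega
  obtain ⟨g, hg⟩ : ∃ g : Fin l → Fin (l + 3) × Bool, Function.Injective g ∧ ∀ i, g i ∈ T := by
    obtain ⟨T', hT', hcard⟩ := Finset.exists_subset_card_eq hTcard
    refine ⟨fun i => (T'.equivFin.symm (Fin.cast hcard.symm i)).1, ?_, ?_⟩
    · intro a b hab
      have := T'.equivFin.symm.injective (Subtype.ext hab)
      simpa [Fin.ext_iff] using this
    · intro i
      exact hT' (T'.equivFin.symm (Fin.cast hcard.symm i)).2
  obtain ⟨hginj, hgT⟩ := hg
  have hgT' : ∀ i, (g i).1 ≠ 0 ∧ (g i).1 ≠ j ∧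
      c s(none, some (g i)) ≠ c s(some (j, !b), some (j, b)) := by
    intro i
    simpa [hT] using hgT i
  let f : Fin 5 ⊕ Fin l → Option (Fin (l + 3) × Bool) := fun x => match x with
    | .inl 0 => none
    | .inl 1 => some (0, b0)
    | .inl 2 => some (j, !b)
    | .inl 3 => some (0, !b0)
    | .inl 4 => some (j, b)
    | .inr i => some (g i)
  have hblade0 : c s(some (0, b0), some (0, !b0)) = c s(some (0, false), some (0, !false)) := by
    cases b0
    · rfl
    · rw [Sym2.eq_swap]
      rfl
  have hk0 : ∀ p, c s(none, some p) = c s(some (0, b0), some (0, !b0)) → p = (j, b) := by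
    intro p hp
    rw [hblade0, ← hj] at hp
    exact sinj _ _ hp
  have hkj : ∀ b', c s(none, some (j, b')) ≠ c s(some (j, !b), some (j, b)) := by
    intro b' h
    apply hnot j b' (!b)
    rw [h, Bool.not_not]
  have hk0j : c s(some (0, b0), some (0, !b0)) ≠ c s(some (j, !b), some (j, b)) := by
    intro h
    rw [hblade0, ← hj] at h
    exact hkj b h
  have hj0' : (0 : Fin (l + 3)) ≠ j := fun h => hj0 h.symm
  have hfinj : Function.Injective f := by
    intro x y hxy
    rcases x with x | x <;> rcases y with y | y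
    · fin_cases x <;> fin_cases y <;> simp [f, hj0, hj0'] at hxy ⊢
    · exfalso
      have h1 := (hgT' y).1
      have h2 := (hgT' y).2.1
      fin_cases x <;> simp [f] at hxy <;> simp [← hxy] at h1 h2
    · exfalso
      have h1 := (hgT' x).1
      have h2 := (hgT' x).2.1
      fin_cases y <;> simp [f] at hxy <;> simp [hxy] at h1 h2
    · have : g x = g y := by simpa [f] using hxy
      rw [hginj this]
  have K1 : ∀ w, w ≠ Sum.inl 0 → w ≠ Sum.inl 3 → w ≠ Sum.inl 4 → ∃ p, f w = some p ∧
      f (par l w) = none ∧ c s(none, some p) ≠ c s(some (j, !b), some (j, b)) := by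
    intro w h0 h3 h4
    rcases w with w | w
    · fin_cases w
      · exact absurd rfl h0
      · exact ⟨_, rfl, rfl, hb0⟩
      · exact ⟨_, rfl, rfl, hkj _⟩
      · exact absurd rfl h3
      · exact absurd rfl h4
    · exact ⟨_, rfl, rfl, (hgT' w).2.2⟩
  refine rainbow_of f hfinj ?_ ?_
  · intro w hw
    rcases w with w | w
    · fin_cases w
      · exact absurd rfl hw
      · trivial
      · trivial
      · exact hbl 0 b0
      · have := hbl j (!b)
        rwa [Bool.not_not] at this
    · trivial
  · have h3 : c s(f (par l (.inl 3)), f (.inl 3)) = c s(some (0, b0), some (0, !b0)) := rfl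
    have h4 : c s(f (par l (.inl 4)), f (.inl 4)) = c s(some (j, !b), some (j, b)) := rfl
    have k3 : ∀ w, w ≠ Sum.inl 0 → w ≠ Sum.inl 3 →
        c s(f (par l (.inl 3)), f (.inl 3)) ≠ c s(f (par l w), f w) := by
      intro w h0w h3w h
      by_cases h4w : w = .inl 4
      · rw [h4w, h3, h4] at h
        exact hk0j h
      · obtain ⟨p, hp1, hp2, _⟩ := K1 w h0w h3w h4w
        rw [h3, hp1, hp2] at h
        have := hk0 p h.symm
        rw [this] at hp1
        exact h4w (hfinj hp1)
    have k4 : ∀ w, w ≠ Sum.inl 0 → w ≠ Sum.inl 3 → w ≠ Sum.inl 4 →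
        c s(f (par l (.inl 4)), f (.inl 4)) ≠ c s(f (par l w), f w) := by
      intro w h0w h3w h4w h
      obtain ⟨p, hp1, hp2, hp3⟩ := K1 w h0w h3w h4w
      rw [h4, hp1, hp2] at h
      exact hp3 h.symm
    intro w w' hw hw' hne
    by_cases e3 : w = .inl 3
    · rw [e3] at hne ⊢
      exact k3 w' hw' hne.symm
    by_cases e3' : w' = .inl 3
    · rw [e3']
      exact (k3 w hw e3).symm
    by_cases e4 : w = .inl 4
    · rw [e4] at hne ⊢
      exact k4 w' hw' e3' hne.symm
    by_cases e4' : w' = .inl 4
    · rw [e4']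
      exact (k4 w hw e3 e4).symm
    obtain ⟨p, hp1, hp2, _⟩ := K1 w hw e3 e4
    obtain ⟨q, hq1, hq2, _⟩ := K1 w' hw' e3' e4'
    rw [hp1, hp2, hq1, hq2]
    intro h
    apply hne
    apply hfinj
    rw [hp1, hq1, sinj p q h]

/-- Part two of the witness property. -/
lemma part2 (l : ℕ) (hl : 1 ≤ l) : ∃ c : Sym2 (Option (Fin (l + 3) × Bool)) → ℕ,
    IsProper (windmill (l + 3)) c ∧ ¬ HasRainbowCopy (spider l) (windmill (l + 3)) c := by
  refine ⟨col2 _, proper2 _, ?_⟩
  rintro ⟨f, hf, hadj, hcol⟩
  have hpar : ∀ w, w ≠ Sum.inl 0 → (windmill (l + 3)).Adj (f (par l w)) (f w) := by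
    intro w hw
    exact hadj _ _ ⟨par_ne l w hw, Or.inr rfl⟩
  -- the centre goes to the hub
  have h0 : f (.inl 0) = none := by
    rcases hx : f (.inl 0) with _ | p
    · rfl
    exfalso
    have h1 := hpar (.inl 1) (by simp)
    have h2 := hpar (.inl 2) (by simp)
    have h3 := hpar (.inr ⟨0, hl⟩) (by simp)
    have e1 : f (.inl 1) ≠ f (.inl 2) := fun h => by simpa using hf h
    have e2 : f (.inl 1) ≠ f (.inr ⟨0, hl⟩) := fun h => by simpa using hf h
    have e3 : f (.inl 2) ≠ f (.inr ⟨0, hl⟩) := fun h => by simpa using hf h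
    simp only [par, hx] at h1 h2 h3
    generalize f (.inl 1) = y1 at h1 e1 e2
    generalize f (.inl 2) = y2 at h2 e1 e3
    generalize f (.inr ⟨0, hl⟩) = y3 at h3 e2 e3
    have key : ∀ y y' : Option (Fin (l + 3) × Bool), (windmill (l + 3)).Adj (some p) y →
        (windmill (l + 3)).Adj (some p) y' → y ≠ y' → y = none ∨ y' = none := by
      rintro (_ | q) (_ | r) h1 h2 hne
      · exact Or.inl rfl
      · exact Or.inl rfl
      · exact Or.inr rfl
      · exfalso
        apply hne
        congr 1
        ext1
        · exact h1.1.symm.trans h2.1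
        · exact eq_of_pair h1.2 h2.2
    rcases key y1 y2 h1 h2 e1 with h | h
    · rcases key y2 y3 h2 h3 e3 with h' | h'
      · exact e1 (h.trans h'.symm)
      · exact e2 (h.trans h'.symm)
    · rcases key y1 y3 h1 h3 e2 with h' | h'
      · exact e1 (h'.trans h.symm)
      · exact e3 (h.trans h'.symm)
  -- the outer edges of the legs are blade edges
  have hb : ∀ w, w ≠ Sum.inl 0 → par l w ≠ Sum.inl 0 → col2 _ s(f (par l w), f w) = 0 := by
    intro w hw hw'
    rcases h1 : f w with _ | p
    · exact (hw (hf (h1.trans h0.symm))).elim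
    · rcases h2 : f (par l w) with _ | q
      · exact (hw' (hf (h2.trans h0.symm))).elim
      · rfl
  have h3 := hb (.inl 3) (by simp) (by simp [par])
  have h4 := hb (.inl 4) (by simp) (by simp [par])
  have e3 : (spider l).Adj (par l (.inl 3)) (.inl 3) := ⟨par_ne l _ (by simp), Or.inr rfl⟩
  have e4 : (spider l).Adj (par l (.inl 4)) (.inl 4) := ⟨par_ne l _ (by simp), Or.inr rfl⟩
  refine hcol s(par l (.inl 3), .inl 3) e3 s(par l (.inl 4), .inl 4) e4 ?_ ?_
  · simp [par]
  · rw [Sym2.map_mk, Sym2.map_mk]
    exact h3.trans h4.symm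

/-- **Result** (answer to Q1 of MP_1c393c_co: yes). For every `n ≥ 6` there is a connected graph on
`n` vertices that admits a non-monotone witness. -/
theorem result : ∀ n : ℕ, 6 ≤ n → ∃ (W : Type) (_ : Fintype W) (H : SimpleGraph W),
    Fintype.card W = n ∧ H.Connected ∧
      ∃ (V : Type) (_ : Fintype V) (G : SimpleGraph V), IsNonMonotoneWitness H G := by
  intro n hn
  refine ⟨Fin 5 ⊕ Fin (n - 5), inferInstance, spider (n - 5), ?_, spider_connected _, ?_⟩
  · rw [Fintype.card_sum, Fintype.card_fin, Fintype.card_fin]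
    omega
  · exact ⟨Option (Fin (n - 5 + 3) × Bool), inferInstance, windmill (n - 5 + 3),
      part1 (n - 5), part2 (n - 5) (by omega)⟩

end Pool.Agent.Results.MP_1c393c_co.InfiniteFamily
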